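import Mathlib
import Pool.Agent.Helper35.HG.StC

/-! HG module EAB. -/

set_option autoImplicit false

namespace Helper61.HG

open Helper35.HG Helper35.HC Helper35.HSF Helper35.MS Helper35.PI Helper35.PI2 Helper32.CL

theorem hEAB (hEA2 : StEA2) : StEAB := by
  intro n δ hn hδ0 hδ1
  obtain ⟨p, μ, K0, hnp, hp3, hμ, hK0, H⟩ := hEA2 n δ hn hδ0 hδ1
  refine ⟨p, μ, hnp, hp3, hμ, ?_⟩
  intro C κ Λ hC hκ hΛ
  have hn2 : (2 : ℝ) ≤ n := by exact_mod_cast hn
  have hn0 : (0 : ℝ) < n := by linarith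
  have hnp' : (n : ℝ) < p := by exact_mod_cast hnp
  have hp0 : (0 : ℝ) < p := by linarith
  refine ⟨Λ * (2 * p * (2 + 1 / n) + 1 + μ * δ)
    + (20 * p * C * κ + 2 * p * ((κ + Λ) / n) + Λ + 6 * μ * C * κ + μ * δ * (κ + Λ)),
    by positivity, ?_⟩
  intro V _ _ a d s θ Y W e G R Z al w m hθ hY hW he hG hal0 halθ hθW heG hs ha hd hw1 hw2 hR hZ
    hκY hm E hE
  have hW0 : 0 < W := by rw [hW]; linarith
  have hYW : Y ≤ W := by rw [hW]; linarith
  have hd' : ‖d‖ ^ 2 ≤ 4 * W * e := by
    have := mul_le_mul_of_nonneg_right hYW he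
    linarith
  have hm0 : m ≤ 0 := by rw [hm]; linarith
  have hmp : -m ≤ p := by rw [hm]; linarith
  have hw0 : 0 ≤ w := le_trans (by positivity) hw1
  have hK1 : 0 ≤ Λ * (2 * p * (2 + 1 / n) + 1 + μ * δ) := by positivity
  have hK2 : 0 ≤ (20 * p * C * κ + 2 * p * ((κ + Λ) / n) + Λ + 6 * μ * C * κ
      + μ * δ * (κ + Λ)) := by positivity
  have hθ2 : 0 ≤ θ ^ 2 := by positivity
  -- common form of the comparison
  have key : ∀ R' Z' al' w' : ℝ, 0 ≤ al' → al' ≤ θ → W / n ≤ w' → w' ≤ 2 * W →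
      R' ≤ 10 * W * θ → δ * W * θ - 1 / δ * W * al' ≤ Z' → R' - θ * w' ≤ -(δ * W * al') →
      E ≤ 2 * p * θ * (R - R') + 2 * m * θ ^ 2 * (w * Y / W - w') + Λ * θ ^ 2
        - μ * θ * (Z - Z') := by
    intro R' Z' al' w' h1 h2 h3 h4 h5 h6 h7
    have h8 := (H V a d s θ W e G R' Z' al' w' m hθ hW0 he hG h1 h2 hθW heG hs ha hd' h3 h4 h5
      h6 hm _ rfl).2 h7
    have h9 : θ ^ 2 * (m / W) * (-2 * e + 2 * w * Y)
        = θ ^ 2 * (m / W) * (-2 * e + 2 * w' * W) + 2 * m * θ ^ 2 * (w * Y / W - w') := by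
      field_simp
      ring
    rw [hE, h9]
    have h10 : Y = W - Λ := by rw [hW]; ring
    have h11 : Y * θ ^ 2 = W * θ ^ 2 - Λ * θ ^ 2 := by rw [h10]; ring
    rw [h11]
    linarith [h8]
  rcases le_or_gt κ Y with hc | hc
  · obtain ⟨g1, g2, g3, g4⟩ := hκY hc
    have e1 : W * (al * Y / W) = al * Y := by field_simp
    have hk := key (R + θ * (Λ / n)) (Z + δ * Λ * θ) (al * Y / W) (w + Λ / n) (by positivity)
      (by
        refine le_trans ?_ halθ
        rw [div_le_iff₀ hW0]
        exact mul_le_mul_of_nonneg_left hYW hal0)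
      (by
        rw [hW, add_div]
        linarith)
      (by
        have : Λ / n ≤ 2 * Λ := by
          rw [div_le_iff₀ hn0]
          have := mul_le_mul_of_nonneg_left hn2 hΛ
          linarith
        rw [hW]
        linarith)
      (by
        have : Λ / n ≤ 10 * Λ := by
          rw [div_le_iff₀ hn0]
          have := mul_le_mul_of_nonneg_left hn2 hΛ
          linarith
        rw [hW]
        have := mul_le_mul_of_nonneg_left this hθ
        linarith)
      (by
        have : 1 / δ * W * (al * Y / W) = 1 / δ * Y * al := by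
          rw [mul_assoc, e1]
          ring
        rw [this, hW]
        linarith [g3])
      (by
        have : δ * W * (al * Y / W) = δ * Y * al := by
          rw [mul_assoc, e1]
          ring
        rw [this]
        linarith [g4])
    refine hk.trans ?_
    have e2 : w * Y / W - (w + Λ / n) = -(Λ * (w / W + 1 / n)) := by
      have : Y = W - Λ := by rw [hW]; ring
      rw [this]
      field_simp
      ring
    rw [e2]
    have e3 : w / W ≤ 2 := by
      rw [div_le_iff₀ hW0]
      linarith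
    have e4 : 0 ≤ w / W + 1 / n := by positivity
    have e5 : (-m) * (w / W + 1 / n) ≤ p * (2 + 1 / n) := by
      calc (-m) * (w / W + 1 / n) ≤ p * (w / W + 1 / n) :=
            mul_le_mul_of_nonneg_right hmp e4
        _ ≤ p * (2 + 1 / n) := by
            apply mul_le_mul_of_nonneg_left _ hp0.le
            linarith
    have e6 : 0 ≤ θ ^ 2 * Λ := by positivity
    have e7 := mul_le_mul_of_nonneg_left e5 e6
    have e8 : 0 ≤ p * θ * (θ * (Λ / n)) := by positivity
    have e9 : 0 ≤ (20 * p * C * κ + 2 * p * ((κ + Λ) / n) + Λ + 6 * μ * C * κ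
      + μ * δ * (κ + Λ)) * θ ^ 2 := mul_nonneg hK2 hθ2
    linarith [e7, e8, e9]
  · have hWk : W ≤ κ + Λ := by rw [hW]; linarith
    have hk := key (θ * (W / n)) (δ * W * θ) 0 (W / n) le_rfl hθ le_rfl
      (by
        rw [div_le_iff₀ hn0]
        have := mul_le_mul_of_nonneg_left hn2 hW0.le
        linarith)
      (by
        have : W / n ≤ 10 * W := by
          rw [div_le_iff₀ hn0]
          have := mul_le_mul_of_nonneg_left hn2 hW0.le
          linarith
        have := mul_le_mul_of_nonneg_left this hθ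
        linarith)
      (by simp)
      (by simp)
    refine hk.trans ?_
    have b1 : θ * R ≤ 10 * C * κ * θ ^ 2 := by
      have : R ≤ 10 * C * κ * θ := hR.trans (by
        have : C * Y * θ ≤ C * κ * θ := by
          apply mul_le_mul_of_nonneg_right _ hθ
          apply mul_le_mul_of_nonneg_left hc.le (by linarith)
        linarith)
      have := mul_le_mul_of_nonneg_left this hθ
      linarith
    have b2 : -(θ * Z) ≤ 6 * C * κ * θ ^ 2 := by
      have h1 : -Z ≤ 6 * C * κ * θ := by
        have : C * Y * θ ≤ C * κ * θ := by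
          apply mul_le_mul_of_nonneg_right _ hθ
          apply mul_le_mul_of_nonneg_left hc.le (by linarith)
        linarith
      have := mul_le_mul_of_nonneg_left h1 hθ
      linarith
    have b3 : m * θ ^ 2 * (w * Y / W) ≤ 0 := by
      have : 0 ≤ θ ^ 2 * (w * Y / W) := by positivity
      have := mul_nonneg (neg_nonneg.mpr hm0) this
      linarith
    have b4 : -m * (θ ^ 2 * (W / n)) ≤ p * (θ ^ 2 * ((κ + Λ) / n)) := by
      have h1 : θ ^ 2 * (W / n) ≤ θ ^ 2 * ((κ + Λ) / n) := by
        apply mul_le_mul_of_nonneg_left _ hθ2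
        apply div_le_div_of_nonneg_right hWk hn0.le
      calc -m * (θ ^ 2 * (W / n)) ≤ p * (θ ^ 2 * (W / n)) :=
            mul_le_mul_of_nonneg_right hmp (by positivity)
        _ ≤ p * (θ ^ 2 * ((κ + Λ) / n)) := mul_le_mul_of_nonneg_left h1 hp0.le
    have b5 : 0 ≤ p * θ * (θ * (W / n)) := by positivity
    have b6 : μ * (δ * W * θ ^ 2) ≤ μ * (δ * (κ + Λ) * θ ^ 2) := by
      apply mul_le_mul_of_nonneg_left _ hμ.le
      apply mul_le_mul_of_nonneg_right _ hθ2
      exact mul_le_mul_of_nonneg_left hWk hδ0.le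
    have b7 := mul_le_mul_of_nonneg_left b1 hp0.le
    have b8 := mul_le_mul_of_nonneg_left b2 hμ.le
    have b9 : 0 ≤ Λ * (2 * p * (2 + 1 / n) + 1 + μ * δ) * θ ^ 2 := mul_nonneg hK1 hθ2
    linarith [b3, b4, b5, b6, b7, b8, b9]

end Helper61.HG
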