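import Mathlib
import Pool.Agent.Helper35.HG.StE

set_option autoImplicit false

namespace Helper61.HG

open Helper35.HG Helper35.PI Helper35.PI2 Helper32.CL Helper35.MS Helper35.HSF Helper35.HC

theorem hSCG (hRG1 : StRG1) (hRG2 : StRG2) (hRG3 : StRG3) (hRG4 : StRG4) (hRDX : StRDX) :
    StSCG := by
  intro n k hk hn
  have hn16 : 16 ≤ n := by omega
  obtain ⟨hJ0, hVt, hoP, hzz⟩ := hRG2 n hn16
  exact
    { n16 := hn16
      E0 := by norm_num [pP]
      K0 := by norm_num [pP]
      K4 := by norm_num [pP]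
      J02 := by rw [hJ0]; norm_num
      cJ := fun x hx => (hRG1 n hn16 x hx).1
      cP := fun x hx => (hRG1 n hn16 x hx).2.1
      ce := fun x hx => (hRG1 n hn16 x hx).2.2.1
      e0 := fun x hx => (hRG1 n hn16 x hx).2.2.2.1
      e10 := fun x hx => (hRG1 n hn16 x hx).2.2.2.2.1
      e20 := fun x hx => (hRG1 n hn16 x hx).2.2.2.2.2.1
      P0 := fun x hx => (hRG1 n hn16 x hx).2.2.2.2.2.2.1
      P10 := fun x hx => (hRG1 n hn16 x hx).2.2.2.2.2.2.2.1
      P20 := fun x hx => (hRG1 n hn16 x hx).2.2.2.2.2.2.2.2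
      V0 := fun X x hX hx => (hVt X x hX hx).1
      top := fun X x hX hx => (hVt X x hX hx).2
      oP := hoP
      zz := hzz
      gr := fun x T g hx hT hg h => hRG3 n k hn16 hn x T g hx hT hg h
      ini := fun X x hX hx h3 => hRG4 n k hn16 hn X x hX hx h3
      rea := fun X x a b T S hX hx ha ha2 hb hb2 hT hT2 hS hS2 hS3 =>
        hRDX n k hn16 hn X x a b T S hX hx ha ha2 hb hb2 hT hT2 hS hS2 hS3 }

end Helper61.HG
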