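import Mathlib
import Pool.Agent.Helper35.HG.StA

/-!
Project HG, module SQC: bounds from the region.
-/

set_option autoImplicit false

namespace Helper61.HG

open Helper35.HG Helper35.HC Helper35.HSF Helper35.MS Helper35.PI Helper35.PI2 Helper32.CL
open scoped ContDiff Manifold Topology ENNReal BigOperators
open MeasureTheory Set Filter

private lemma ip0_self_nonneg_SQC {n : ℕ} (X : Fin n → Fin n → ℝ) : 0 ≤ ip0 X X := by
  unfold ip0
  exact Finset.sum_nonneg fun i _ => Finset.sum_nonneg fun j _ => mul_self_nonneg _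

private lemma cq_self_SQC {n : ℕ} (X : Fin n → Fin n → ℝ) : cq X X = 0 := by
  unfold cq
  simp

private lemma ip0_smul_SQC {n : ℕ} (c : ℝ) (X : Fin n → Fin n → ℝ) :
    ip0 (fun i j => c * X i j) (fun i j => c * X i j) = c ^ 2 * ip0 X X := by
  have h : ∀ i j, tl (fun i j => c * X i j) i j = c * tl X i j := by
    intro i j
    unfold tl
    have hm : mt (fun i j => c * X i j) = c * mt X := by
      unfold Helper35.HC.mt
      rw [← Finset.mul_sum, mul_div_assoc]
    rw [hm]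
    split_ifs <;> ring
  unfold ip0
  rw [Finset.mul_sum]
  refine Finset.sum_congr rfl fun i _ => ?_
  rw [Finset.mul_sum]
  refine Finset.sum_congr rfl fun j _ => ?_
  rw [h]
  ring

/-- the region for one unit normal -/
private lemma one_SQC (hSPX : StSPX) {n k N : ℕ} {p : Prf} (hp : GPr n k p)
    {A : Fin n → Fin n → EE N} {r : ℝ} {L : EE n →ₗᵢ[ℝ] EE N} {x₀ : EE N} (hA : ASp n A r L x₀)
    {l : ℝ} (hl0 : 0 < l) (hR : RgA n p l A r L x₀) {x T : ℝ}
    (hx : x = YY A / (n ^ 2 * r) - 1) (hT : T = thA2 A / (n * r)) (hx0 : 0 ≤ x) (hT0 : 0 ≤ T)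
    (ν : EE N) (hν : UN L x₀ ν) :
    0 ≤ ip0 (kn A ν) (kn A ν) ∧
    (1 + p.E) * ip0 (kn A ν) (kn A ν) ≤
      n * (r * (l * (p.J ((inner ℝ (Hv A) ν : ℝ) ^ 2 / (n ^ 2 * r)) + p.P x))) ∧
    ∀ Y : Fin n → Fin n → ℝ, SymS Y → cq (kn A ν) Y ≤
      4 * (r * (l * (p.J ((inner ℝ (Hv A) ν : ℝ) ^ 2 / (n ^ 2 * r)) + p.P x))) * ip0 Y Y ∧
      cq Y (kn A ν) = cq (kn A ν) Y := by
  have hn2 : 2 ≤ n := by have := hp.n16; omega
  have hn0 : (0 : ℝ) < n := by exact_mod_cast (show 0 < n by omega)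
  have hr0 := hA.r0
  have hS : SymS (kn A ν) := by
    intro i j
    unfold Helper35.HG.kn
    rw [hA.sy i j]
  have hF : ∀ c d, OP c d → bil (kn A ν) c d ^ 2 + p.E / n * ip0 (kn A ν) (kn A ν) ≤
      r * (l * (p.J ((inner ℝ (Hv A) ν : ℝ) ^ 2 / (n ^ 2 * r)) + p.P x)) := by
    intro c d hcd
    have h1 := hR ν hν c d hcd
    rw [← hx, ← hT] at h1
    have h2 : 0 ≤ l * (p.e x * T) := mul_nonneg hl0.le (mul_nonneg (hp.e0 x hx0) hT0)
    have h3 : (bil (kn A ν) c d ^ 2 + p.E / n * ip0 (kn A ν) (kn A ν)) / r ≤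
        l * (p.J ((inner ℝ (Hv A) ν : ℝ) ^ 2 / (n ^ 2 * r)) + p.P x) := by linarith
    rw [div_le_iff₀ hr0] at h3
    linarith
  obtain ⟨h1, h2, h3, h4⟩ := hSPX n hn2 (kn A ν) p.E _ hS hp.E0.le hF
  refine ⟨h1, h3, ?_⟩
  intro Y hY
  obtain ⟨h5, h6, h7⟩ := h4 Y hY
  refine ⟨h5.trans ?_, h6⟩
  refine mul_le_mul_of_nonneg_right ?_ (ip0_self_nonneg_SQC Y)
  have h8 : 0 ≤ p.E / n * ip0 (kn A ν) (kn A ν) := mul_nonneg (div_nonneg hp.E0.le hn0.le) h1
  linarith

theorem hSQC (hFRM : StFRM) (hFRL : StFRL) (hSQF : StSQF) (hSPX : StSPX) (hGBD : StGBD) :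
    StSQC := by
  intro n N k hN p hp A r L x₀ hA l hl0 hl1 hR x T hx hT
  have hn2 : 2 ≤ n := by have := hp.n16; omega
  have hn0 : (0 : ℝ) < n := by exact_mod_cast (show 0 < n by omega)
  have hr0 := hA.r0
  have hE0 := hp.E0
  have hE1 : 0 < 1 + p.E := by linarith
  obtain ⟨-, e, hNF, hUN, hj, hrep⟩ := hFRM n N k hN (by omega) A r L x₀ hA
  obtain ⟨H, hH⟩ : ∃ H : Fin (k + 2) → Fin n → Fin n → ℝ, H = fun α => kn A (e α) := ⟨_, rfl⟩
  rw [← hH] at hNF
  have hHα : ∀ α, H α = kn A (e α) := fun α => by rw [hH]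
  obtain ⟨-, s2, s3, s4, s5, s6⟩ := hSQF n N (k + 2) (by omega) A H r e x₀ hNF
    (lin (fun α => mt (H α)) H) (∑ α, mt (H α) ^ 2) rfl rfl
  -- the means
  have hmj : ∀ j : Fin (k + 1), mt (H j.succ) = 0 := by
    intro j
    have h1 := s2 j.succ
    rw [hj j] at h1
    rcases mul_eq_zero.1 h1.symm with h | h
    · exact absurd h hn0.ne'
    · exact h
  obtain ⟨m, hm⟩ : ∃ m, m = mt (H 0) := ⟨_, rfl⟩
  have hmm : ∑ α, mt (H α) ^ 2 = m ^ 2 := by
    rw [Fin.sum_univ_succ, hm]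
    simp [hmj]
  rw [hmm] at s3 s5
  have hM : lin (fun α => mt (H α)) H = fun i j => m * H 0 i j := by
    funext i j
    unfold lin
    rw [Fin.sum_univ_succ, hm]
    simp [hmj]
  rw [hM, ip0_smul_SQC] at s5 s6
  have hxm : x * r = m ^ 2 := by
    rw [hx, s3]
    field_simp
    ring
  have hx0 : 0 ≤ x := by
    have h1 : 0 ≤ x * r := by rw [hxm]; positivity
    exact nonneg_of_mul_nonneg_left h1 hr0
  have hT0 : 0 ≤ T := by
    rw [hT, s4]
    exact div_nonneg (Finset.sum_nonneg fun α _ => ip0_self_nonneg_SQC _) (by positivity)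
  have hone := fun ν hν => one_SQC hSPX hp hA hl0 hR hx hT hx0 hT0 ν hν
  -- the values of `X`
  have hX0 : (inner ℝ (Hv A) (e 0) : ℝ) ^ 2 / (n ^ 2 * r) = x := by
    rw [s2 0, ← hm]
    have h1 : x = m ^ 2 / r := by
      rw [← hxm]
      field_simp
    rw [h1]
    field_simp
  have hXj : ∀ j : Fin (k + 1), (inner ℝ (Hv A) (e j.succ) : ℝ) ^ 2 / (n ^ 2 * r) = 0 := by
    intro j
    rw [hj j]
    simp
  have hXa : ∀ ν, UN L x₀ ν → (inner ℝ (Hv A) ν : ℝ) ^ 2 / (n ^ 2 * r) ≤ x := by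
    intro ν hν
    obtain ⟨a, ha, hνa⟩ := hrep ν hν
    have h1 := (hFRL n N (k + 2) (by omega) A H r L e x₀ hNF hUN a).2.1
    rw [← hνa] at h1
    have h2 : ∑ α, a α * mt (H α) = a 0 * m := by
      rw [Fin.sum_univ_succ, hm]
      simp [hmj]
    rw [h1, h2]
    have h3 : (n * (a 0 * m)) ^ 2 / (n ^ 2 * r) = a 0 ^ 2 * x := by
      have h4 : x = m ^ 2 / r := by
        rw [← hxm]
        field_simp
      rw [h4]
      field_simp
    rw [h3]
    have h5 : a 0 ^ 2 ≤ 1 := by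
      rw [← ha]
      exact Finset.single_le_sum (f := fun α => a α ^ 2) (fun α _ => sq_nonneg _) (Finset.mem_univ 0)
    nlinarith
  have hX0n : ∀ ν : EE N, 0 ≤ (inner ℝ (Hv A) ν : ℝ) ^ 2 / (n ^ 2 * r) := fun ν => by positivity
  -- names
  obtain ⟨Vx, hVx⟩ : ∃ V, V = p.J x + p.P x := ⟨_, rfl⟩
  obtain ⟨V0, hV0⟩ : ∃ V, V = p.J 0 + p.P x := ⟨_, rfl⟩
  have hVx0 : 0 < Vx := by rw [hVx]; exact hp.V0 x x hx0 le_rfl
  have hV00 : 0 < V0 := by rw [hV0]; exact hp.V0 0 x le_rfl hx0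
  have hlx : l * Vx ≤ Vx := mul_le_of_le_one_left hVx0.le hl1
  have hl00 : l * V0 ≤ V0 := mul_le_of_le_one_left hV00.le hl1
  have hb0 := hone (e 0) (hUN 0)
  rw [hX0, ← hVx, ← hHα] at hb0
  obtain ⟨b1, b2, b3⟩ := hb0
  have hbj : ∀ j : Fin (k + 1), 0 ≤ ip0 (H j.succ) (H j.succ) ∧
      (1 + p.E) * ip0 (H j.succ) (H j.succ) ≤ n * (r * (l * V0)) ∧
      ∀ Y : Fin n → Fin n → ℝ, SymS Y → cq (H j.succ) Y ≤ 4 * (r * (l * V0)) * ip0 Y Y ∧
        cq Y (H j.succ) = cq (H j.succ) Y := by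
    intro j
    have := hone (e j.succ) (hUN j.succ)
    rw [hXj j, ← hV0, ← hHα] at this
    exact this
  have hTs : (n * r) * T = ∑ α, ip0 (H α) (H α) := by
    rw [hT, s4]
    field_simp
  have hTs2 : (n * r) * T = ip0 (H 0) (H 0) + ∑ j : Fin (k + 1), ip0 (H j.succ) (H j.succ) := by
    rw [hTs, Fin.sum_univ_succ]
  have hnr : 0 < n * r := by positivity
  refine ⟨hx0, hT0, ?_, ?_, ?_⟩
  · rw [← hVx, ← hV0]
    have h1 : (n * r) * ((1 + p.E) * T) ≤ (n * r) * (l * (Vx + (k + 1) * V0)) := by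
      have h2 : (n * r) * ((1 + p.E) * T) = (1 + p.E) * ip0 (H 0) (H 0) +
          ∑ j : Fin (k + 1), (1 + p.E) * ip0 (H j.succ) (H j.succ) := by
        rw [← Finset.mul_sum, ← mul_add, ← hTs2]
        ring
      have h3 : ∑ j : Fin (k + 1), (1 + p.E) * ip0 (H j.succ) (H j.succ) ≤
          ∑ j : Fin (k + 1), n * (r * (l * V0)) := Finset.sum_le_sum fun j _ => (hbj j).2.1
      rw [Finset.sum_const, Finset.card_univ, Fintype.card_fin, nsmul_eq_mul] at h3
      push_cast at h3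
      rw [h2]
      calc (1 + p.E) * ip0 (H 0) (H 0) + ∑ j : Fin (k + 1), (1 + p.E) * ip0 (H j.succ) (H j.succ)
          ≤ n * (r * (l * Vx)) + ((k : ℝ) + 1) * (n * (r * (l * V0))) := add_le_add b2 h3
        _ = (n * r) * (l * (Vx + (k + 1) * V0)) := by ring
    exact le_of_mul_le_mul_left h1 hnr
  · intro ν hν
    obtain ⟨h1, h2, -⟩ := hone ν hν
    refine ⟨hXa ν hν, h1, ?_⟩
    rw [mul_div_assoc', div_le_iff₀ hnr]
    linarith
  · obtain ⟨b, hb⟩ : ∃ b, b = ip0 (H 0) (H 0) / (n * r) := ⟨_, rfl⟩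
    have hbn : (n * r) * b = ip0 (H 0) (H 0) := by
      rw [hb]
      field_simp
    have hsn : 0 ≤ ∑ j : Fin (k + 1), ip0 (H j.succ) (H j.succ) :=
      Finset.sum_nonneg fun j _ => (hbj j).1
    have hb00 : 0 ≤ b := by rw [hb]; exact div_nonneg b1 hnr.le
    have hbE : (1 + p.E) * b ≤ l * Vx := by
      rw [hb, mul_div_assoc', div_le_iff₀ hnr]
      linarith
    refine ⟨b, hb00, by rw [← hVx]; exact hbE, ?_, ?_, ?_⟩
    · have h1 : (n * r) * b ≤ (n * r) * T := by
        rw [hbn, hTs2]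
        linarith
      exact le_of_mul_le_mul_left h1 hnr
    · rw [s5, s3, ← hxm, ← hbn]
      field_simp
      ring
    · rw [s6, ← hbn, ← hxm, ← hV0, ← hVx]
      -- the Gram part
      have hSy : ∀ α, SymS (H α) := hNF.sy
      have hJK : 0 < p.J 0 + p.K * x :=
        lt_of_lt_of_le (hp.V0 0 x le_rfl hx0) (hp.top 0 x le_rfl hx0)
      have hG : ∑ α, ∑ β, ip0 (H α) (H β) ^ 2 ≤
          n * r * ((p.J 0 + p.K * x) / (1 + p.E)) * (n * r * T) := by
        rw [hTs]
        refine hGBD n (k + 2) H _ ?_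
        intro a ha
        obtain ⟨f1, -, -, -, f5⟩ := hFRL n N (k + 2) (by omega) A H r L e x₀ hNF hUN a
        have hν := f5 ha
        obtain ⟨-, h2, -⟩ := hone _ hν
        rw [f1] at h2
        have h3 := hXa _ hν
        have h4 := hX0n (∑ α, a α • e α)
        have h5 := hp.top _ x h4 h3
        have h6 := hp.V0 _ x h4 h3
        have h7 : (1 + p.E) * ip0 (lin a H) (lin a H) ≤ n * r * (p.J 0 + p.K * x) := by
          refine h2.trans ?_
          have h8 := mul_le_of_le_one_left h6.le hl1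
          calc _ ≤ n * (r * (p.J 0 + p.K * x)) :=
                mul_le_mul_of_nonneg_left (mul_le_mul_of_nonneg_left (h8.trans h5) hr0.le) hn0.le
            _ = _ := by ring
        rw [mul_div_assoc', le_div_iff₀ hE1]
        linarith
      -- the commutator part
      obtain ⟨a0, ha0⟩ : ∃ a, a = 4 * (r * V0) * (n * r * Vx / (1 + p.E)) := ⟨_, rfl⟩
      obtain ⟨a1, ha1⟩ : ∃ a, a = 4 * (r * V0) * (n * r * V0 / (1 + p.E)) := ⟨_, rfl⟩
      have ha10 : 0 ≤ a1 := by rw [ha1]; positivity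
      have hi0 : ip0 (H 0) (H 0) ≤ n * r * Vx / (1 + p.E) := by
        rw [le_div_iff₀ hE1]
        have h1 : n * (r * (l * Vx)) ≤ n * (r * Vx) :=
          mul_le_mul_of_nonneg_left (mul_le_mul_of_nonneg_left hlx hr0.le) hn0.le
        linarith
      have hij : ∀ j : Fin (k + 1), ip0 (H j.succ) (H j.succ) ≤ n * r * V0 / (1 + p.E) := by
        intro j
        rw [le_div_iff₀ hE1]
        have h1 : n * (r * (l * V0)) ≤ n * (r * V0) :=
          mul_le_mul_of_nonneg_left (mul_le_mul_of_nonneg_left hl00 hr0.le) hn0.le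
        linarith [(hbj j).2.1]
      have hrl : 4 * (r * (l * V0)) ≤ 4 * (r * V0) :=
        mul_le_mul_of_nonneg_left (mul_le_mul_of_nonneg_left hl00 hr0.le) (by norm_num)
      have hc0 : ∀ j : Fin (k + 1), cq (H j.succ) (H 0) ≤ a0 := by
        intro j
        rw [ha0]
        refine ((hbj j).2.2 (H 0) (hSy 0)).1.trans ?_
        exact mul_le_mul hrl hi0 b1 (by positivity)
      have hc0' : ∀ j : Fin (k + 1), cq (H 0) (H j.succ) ≤ a0 := by
        intro j
        rw [((hbj j).2.2 (H 0) (hSy 0)).2]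
        exact hc0 j
      have hcij : ∀ i j : Fin (k + 1), cq (H i.succ) (H j.succ) ≤ if i = j then 0 else a1 := by
        intro i j
        split_ifs with hij'
        · rw [hij', cq_self_SQC]
        · rw [ha1]
          refine ((hbj i).2.2 (H j.succ) (hSy _)).1.trans ?_
          exact mul_le_mul hrl (hij j) (hbj j).1 (by positivity)
      have hC : ∑ α, ∑ β, cq (H α) (H β) ≤ 2 * ((k : ℝ) + 1) * a0 + ((k : ℝ) + 1) * k * a1 := by
        rw [Fin.sum_univ_succ]
        have h1 : ∑ β, cq (H 0) (H β) ≤ ((k : ℝ) + 1) * a0 := by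
          rw [Fin.sum_univ_succ, cq_self_SQC, zero_add]
          calc ∑ j : Fin (k + 1), cq (H 0) (H j.succ) ≤ ∑ j : Fin (k + 1), a0 :=
                Finset.sum_le_sum fun j _ => hc0' j
            _ = ((k : ℝ) + 1) * a0 := by
              rw [Finset.sum_const, Finset.card_univ, Fintype.card_fin, nsmul_eq_mul]
              push_cast
              ring
        have h2 : ∀ i : Fin (k + 1), ∑ β, cq (H i.succ) (H β) ≤ a0 + k * a1 := by
          intro i
          rw [Fin.sum_univ_succ]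
          refine add_le_add (hc0 i) ?_
          calc ∑ j : Fin (k + 1), cq (H i.succ) (H j.succ) ≤
                ∑ j : Fin (k + 1), (if i = j then 0 else a1) := Finset.sum_le_sum fun j _ => hcij i j
            _ = ∑ j : Fin (k + 1), (a1 - if i = j then a1 else 0) := by
                refine Finset.sum_congr rfl fun j _ => ?_
                split_ifs <;> ring
            _ = k * a1 := by
              rw [Finset.sum_sub_distrib, Finset.sum_const, Finset.card_univ, Fintype.card_fin,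
                nsmul_eq_mul, Finset.sum_ite_eq]
              simp only [Finset.mem_univ, if_true]
              push_cast
              ring
        have h3 : ∑ i : Fin (k + 1), ∑ β, cq (H i.succ) (H β) ≤ ((k : ℝ) + 1) * (a0 + k * a1) := by
          calc ∑ i : Fin (k + 1), ∑ β, cq (H i.succ) (H β) ≤ ∑ i : Fin (k + 1), (a0 + k * a1) :=
                Finset.sum_le_sum fun i _ => h2 i
            _ = ((k : ℝ) + 1) * (a0 + k * a1) := by
              rw [Finset.sum_const, Finset.card_univ, Fintype.card_fin, nsmul_eq_mul]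
              push_cast
              ring
        calc _ ≤ ((k : ℝ) + 1) * a0 + ((k : ℝ) + 1) * (a0 + k * a1) := add_le_add h1 h3
          _ = _ := by ring
      have hCe : 2 * ((k : ℝ) + 1) * a0 + ((k : ℝ) + 1) * k * a1 =
          n ^ 2 * r ^ 2 * (4 * (k + 1) / n * (V0 / (1 + p.E)) * (2 * Vx + k * V0)) := by
        rw [ha0, ha1]
        field_simp
      have hspl : ∑ α, ∑ β, (ip0 (H α) (H β) ^ 2 + cq (H α) (H β)) =
          ∑ α, ∑ β, ip0 (H α) (H β) ^ 2 + ∑ α, ∑ β, cq (H α) (H β) := by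
        rw [← Finset.sum_add_distrib]
        refine Finset.sum_congr rfl fun α _ => ?_
        rw [← Finset.sum_add_distrib]
      rw [hspl]
      rw [hCe] at hC
      calc ∑ α, ∑ β, ip0 (H α) (H β) ^ 2 + ∑ α, ∑ β, cq (H α) (H β) + n * (x * r * (n * r * b))
          ≤ n * r * ((p.J 0 + p.K * x) / (1 + p.E)) * (n * r * T) +
            n ^ 2 * r ^ 2 * (4 * (k + 1) / n * (V0 / (1 + p.E)) * (2 * Vx + k * V0)) +
            n * (x * r * (n * r * b)) := add_le_add (add_le_add hG hC) le_rfl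
        _ = _ := by ring

end Helper61.HG
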